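import Mathlib

namespace Pool.Agent.Results.MP_36f7ac_an.AllFail

open Filter Topology Matrix
open scoped ENNReal Matrix.Norms.Operator

/-- real square matrices -/
abbrev Mat (N : ℕ) : Type := Matrix (Fin N) (Fin N) ℝ

/-- the product `Aₙ Bₙ ⋯ A₁ B₁` -/
def prod {N : ℕ} : {n : ℕ} → (Fin n → Mat N) → (Fin n → Mat N) → Mat N
  | 0, _, _ => 1
  | n + 1, A, B => A (Fin.last n) * B (Fin.last n) * prod (Fin.init A) (Fin.init B)

/-- the `n`-th root of the max-min value of `f` on products of length `n` -/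
noncomputable def mu {N : ℕ} (f : Mat N → ℝ≥0∞) (S T : Finset (Mat N)) (n : ℕ) : ℝ≥0∞ :=
  (⨆ A : Fin n → S, ⨅ B : Fin n → T, f (prod (fun i => A i) fun i => B i)) ^ (1 / n : ℝ)

/-- the `n`-th root of the min-max value of `f` on products of length `n` -/
noncomputable def eta {N : ℕ} (f : Mat N → ℝ≥0∞) (S T : Finset (Mat N)) (n : ℕ) : ℝ≥0∞ :=
  (⨅ B : Fin n → T, ⨆ A : Fin n → S, f (prod (fun i => A i) fun i => B i)) ^ (1 / n : ℝ)

/-- spectral radius -/
noncomputable def rho {N : ℕ} (M : Mat N) : ℝ≥0∞ := spectralRadius ℂ (M.map fun x => (x : ℂ))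

/-- operator norm for the sup norm -/
noncomputable def nrm {N : ℕ} (M : Mat N) : ℝ≥0∞ := ‖M‖ₑ

def p (n : ℕ) : ℕ := if n = 0 then 0 else if n % 2 = 1 then n / 2 % 2 else p (n / 2)

lemma p_le (n : ℕ) : p n ≤ 1 := by
  induction n using Nat.strong_induction_on with
  | _ n ih =>
    rw [p]
    split_ifs
    · omega
    · omega
    · exact ih _ (by omega)

lemma p_two (n : ℕ) : p (2 * n) = p n := by
  rcases n.eq_zero_or_pos with rfl | h
  · rfl
  · rw [p, if_neg (by omega), if_neg (by omega), show 2 * n / 2 = n by omega]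

lemma p_odd {n : ℕ} (h : n % 2 = 1) : p n = n / 2 % 2 := by
  rw [p, if_neg (by omega), if_pos h]

lemma p_sq (q : ℕ) : 0 < q → ∀ i, ∃ n, i ≤ n ∧ n < i + 2 * q ∧ p n ≠ p (n + 2 * q) := by
  induction q using Nat.strong_induction_on with
  | _ q ih =>
    intro hq i
    rcases Nat.mod_two_eq_zero_or_one q with h | h
    · obtain ⟨n, h1, h2, h3⟩ := ih (q / 2) (by omega) (by omega) ((i + 1) / 2)
      refine ⟨2 * n, by omega, by omega, ?_⟩
      rwa [← mul_add, p_two, p_two, show n + q = n + 2 * (q / 2) by omega]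
    · refine ⟨2 * (i / 2) + 1, by omega, by omega, ?_⟩
      rw [p_odd (by omega), p_odd (by omega)]
      omega

def c (n : ℕ) : ℕ := 1 + n % 2 + 2 * p n

lemma c_mem (n : ℕ) : 1 ≤ c n ∧ c n ≤ 4 := by
  have := p_le n
  unfold c
  omega

def val (i : ℕ) : ℕ → ℕ
  | 0 => 0
  | k + 1 => 5 * val i k + c (i + k)

lemma val_inj (i j k : ℕ) : ∀ l, val i k = val j l → k = l ∧ ∀ m < k, c (i + m) = c (j + m) := by
  induction k with
  | zero =>
    rintro (_ | l) h
    · simp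
    · have := c_mem (j + l)
      simp only [val] at h
      omega
  | succ k ih =>
    have := c_mem (i + k)
    rintro (_ | l) h <;> simp only [val] at h
    · omega
    · have := c_mem (j + l)
      obtain ⟨rfl, h1⟩ := ih l (by omega)
      refine ⟨rfl, fun m hm => ?_⟩
      rcases (Nat.lt_succ_iff.1 hm).eq_or_lt with rfl | hm
      · omega
      · exact h1 m hm

lemma val_ne (i k l : ℕ) (hl : 0 < l) : val i k ≠ val (i + k) l := fun h => by
  obtain ⟨rfl, h1⟩ := val_inj _ _ _ _ h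
  rcases Nat.mod_two_eq_zero_or_one k with e | e
  · obtain ⟨n, a1, a2, a3⟩ := p_sq (k / 2) (by omega) i
    have := h1 (n - i) (by omega)
    rw [show i + (n - i) = n by omega, show i + k + (n - i) = n + 2 * (k / 2) by omega] at this
    unfold c at this
    omega
  · have := h1 0 hl
    unfold c at this
    omega

def W (a b : ℝ) : Mat 5 := !![1, 0, 0, 0, 0; b, a, 0, 0, 0; 0, 0, 1, 0, 0; 0, 0, 0, 1, 0; 0, 0, b, 0, a]

def Q : Mat 5 := !![0, 0, 0, 1, -1; 0, 0, 0, 0, 0; 1, 0, 0, 0, 0; 0, 1, 0, 0, 0; 0, 0, 0, 0, 0]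

lemma W_mul (a b a' b' : ℝ) : W a b * W a' b' = W (a * a') (b + a * b') := by
  ext i j
  fin_cases i <;> fin_cases j <;> simp [W, mul_apply, Fin.sum_univ_five]

lemma W_vec (a b : ℝ) (v : Fin 5 → ℝ) :
    W a b *ᵥ v = ![v 0, b * v 0 + a * v 1, v 2, v 3, b * v 2 + a * v 4] := by
  ext i
  fin_cases i <;> simp [W, mulVec, dotProduct, Fin.sum_univ_five]

lemma Q_vec (v : Fin 5 → ℝ) : Q *ᵥ v = ![v 3 - v 4, 0, v 0, v 1, 0] := by
  ext i
  fin_cases i <;> simp [Q, mulVec, dotProduct, Fin.sum_univ_five, sub_eq_add_neg]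

lemma nil (a b : ℝ) : (W a b * Q) ^ 4 = 0 := by
  refine ext_iff_mulVec.2 fun v => ?_
  simp only [pow_succ, pow_zero, one_mul, ← mulVec_mulVec, W_vec, Q_vec, zero_mulVec]
  ext i
  fin_cases i <;> simp

lemma rho_nil (a b : ℝ) : rho (W a b * Q) = 0 := by
  refine le_antisymm (iSup₂_le fun z hz => ?_) bot_le
  have := spectrum.pow_mem_pow _ 4 hz
  rw [show ((W a b * Q).map fun x => (x : ℂ)) = Complex.ofRealHom.mapMatrix (W a b * Q) from rfl,
    ← map_pow, nil, map_zero, spectrum.zero_eq] at this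
  simp [pow_eq_zero_iff (by norm_num : 4 ≠ 0) |>.1 this]

lemma prod_nil (n : ℕ) : ∀ A : Fin (n + 1) → Mat 5, (∀ i, ∃ a b, A i = W a b) →
    ∃ a b, prod A (fun i => if (i : ℕ) = 0 then Q else 1) = W a b * Q := by
  induction n with
  | zero =>
    intro A hA
    obtain ⟨a, b, h⟩ := hA 0
    exact ⟨a, b, by simp [prod, h]⟩
  | succ n ih =>
    intro A hA
    obtain ⟨a, b, h⟩ := hA (Fin.last _)
    obtain ⟨a', b', h'⟩ := ih (Fin.init A) fun i => hA _
    refine ⟨a * a', b + a * b', ?_⟩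
    rw [prod, h, if_neg (by simp), mul_one]
    exact (congrArg (W a b * ·) h').trans (by rw [← mul_assoc, W_mul])

def Inv (n : ℕ) (v : Fin 5 → ℝ) : Prop := ∃ z : ℤ, z ≠ 0 ∧
  ((∃ i k, i + k = n ∧ v = ![(z : ℝ), z * val i k, 0, 0, 0]) ∨
    ∃ i k l, i + k + l = n ∧ 0 < l ∧ v = ![0, 0, (z : ℝ), z * val i k, z * val (i + k) l])

lemma inv (n : ℕ) : ∀ B : Fin n → Mat 5, (∀ i, B i = 1 ∨ B i = Q) →
    Inv n (prod (fun i => W 5 (c i)) B *ᵥ ![1, 0, 0, 0, 0]) := by
  induction n with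
  | zero => exact fun B _ => ⟨1, one_ne_zero, .inl ⟨0, 0, rfl, by simp [prod, val]⟩⟩
  | succ n ih =>
    intro B hB
    obtain ⟨z, hz, h⟩ := ih (Fin.init B) fun i => hB _
    have e : prod (fun i : Fin (n + 1) => W 5 (c i)) B *ᵥ ![1, 0, 0, 0, 0] = W 5 (c n) *ᵥ
      (B (Fin.last n) *ᵥ (prod (fun i : Fin n => W 5 (c i)) (Fin.init B) *ᵥ ![1, 0, 0, 0, 0])) := by
      rw [mulVec_mulVec, mulVec_mulVec]; rfl
    rw [e]
    rcases hB (Fin.last n) with e | e <;> rcases h with ⟨i, k, rfl, h⟩ | ⟨i, k, l, rfl, hl, h⟩ <;>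
      rw [e, h]
    · refine ⟨z, hz, .inl ⟨i, k + 1, rfl, ?_⟩⟩
      simp [W_vec, val]; ring
    · refine ⟨z, hz, .inr ⟨i, k, l + 1, rfl, by omega, ?_⟩⟩
      simp [W_vec, val]; ring
    · refine ⟨z, hz, .inr ⟨i, k, 1, rfl, by omega, ?_⟩⟩
      simp [W_vec, Q_vec, val]; ring
    · refine ⟨z * (val i k - val (i + k) l), mul_ne_zero hz (sub_ne_zero.2 ?_),
        .inl ⟨i + k + l, 1, rfl, ?_⟩⟩
      · exact_mod_cast val_ne i k l hl
      · simp [W_vec, Q_vec, val]; constructor <;> ring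

lemma low (n : ℕ) (B : Fin n → Mat 5) (hB : ∀ i, B i = 1 ∨ B i = Q) :
    1 ≤ nrm (prod (fun i => W 5 (c i)) B) := by
  obtain ⟨z, hz, h⟩ := inv n B hB
  have h1 := linfty_opNorm_mulVec (prod (fun i => W 5 (c i)) B) ![1, 0, 0, 0, 0]
  have h2 : ‖(![1, 0, 0, 0, 0] : Fin 5 → ℝ)‖ ≤ 1 :=
    (pi_norm_le_iff_of_nonneg zero_le_one).2 fun i => by fin_cases i <;> simp
  have h3 : (1 : ℝ) ≤ |(z : ℝ)| := by exact_mod_cast Int.one_le_abs hz
  rw [nrm, ← ofReal_norm, ENNReal.one_le_ofReal]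
  refine le_trans ?_ (h1.trans (mul_le_of_le_one_right (norm_nonneg _) h2))
  rcases h with ⟨i, k, -, h⟩ | ⟨i, k, l, -, -, h⟩ <;> rw [h]
  · exact h3.trans (norm_le_pi_norm ![(z : ℝ), z * val i k, 0, 0, 0] 0)
  · exact h3.trans (norm_le_pi_norm ![0, 0, (z : ℝ), z * val i k, z * val (i + k) l] 2)

theorem result : ∃ (N : ℕ) (S T : Finset (Mat N)), 1 ≤ N ∧ S.Nonempty ∧ T.Nonempty ∧
    limsup (mu rho S T) atTop < liminf (mu nrm S T) atTop ∧
    limsup (eta rho S T) atTop < liminf (eta nrm S T) atTop ∧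
    liminf (mu rho S T) atTop < liminf (mu nrm S T) atTop ∧
    liminf (eta rho S T) atTop < liminf (eta nrm S T) atTop := by
  classical
  let S : Finset (Mat 5) := (Finset.range 5).image fun a : ℕ => W 5 a
  let T : Finset (Mat 5) := {1, Q}
  have h1 (f : Mat 5 → ℝ≥0∞) (n : ℕ) : mu f S T n ≤ eta f S T n :=
    ENNReal.rpow_le_rpow (iSup_iInf_le_iInf_iSup _) (by positivity)
  have h2 : eta rho S T =ᶠ[atTop] fun _ => 0 := by
    filter_upwards [eventually_gt_atTop 0] with n hn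
    obtain ⟨n, rfl⟩ := Nat.exists_eq_add_one_of_ne_zero hn.ne'
    refine (ENNReal.rpow_eq_zero_iff_of_pos (by positivity)).2 (le_antisymm (iInf_le_of_le
      (fun i => ⟨if (i : ℕ) = 0 then Q else 1, by split_ifs <;> simp [T]⟩) (iSup_le fun A => ?_)) bot_le)
    obtain ⟨a, b, h⟩ := prod_nil n (fun i => A i) fun i => by
      obtain ⟨a, -, h⟩ := Finset.mem_image.1 (A i).2
      exact ⟨_, _, h.symm⟩
    rw [h, rho_nil]
  have h3 : mu rho S T =ᶠ[atTop] fun _ => 0 := h2.mono fun n hn => le_antisymm ((h1 _ n).trans hn.le) bot_le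
  have h4 (n : ℕ) : 1 ≤ mu nrm S T n := by
    refine le_trans (by simp) (ENNReal.rpow_le_rpow (x := 1) (le_iSup_of_le (fun i => ⟨W 5 (c i),
      Finset.mem_image_of_mem _ (Finset.mem_range.2 (Nat.lt_succ_of_le (c_mem i).2))⟩)
      (le_iInf fun B => low n _ fun i => ?_)) (by positivity))
    exact (Finset.mem_insert.1 (B i).2).imp id Finset.mem_singleton.1
  have h5 : 0 < liminf (mu nrm S T) atTop :=
    one_pos.trans_le (le_liminf_of_le (h := Eventually.of_forall h4))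
  have h6 : 0 < liminf (eta nrm S T) atTop :=
    one_pos.trans_le (le_liminf_of_le (h := Eventually.of_forall fun n => (h4 n).trans (h1 _ n)))
  refine ⟨5, S, T, by norm_num, by simp [S], by simp [T], ?_, ?_, ?_, ?_⟩
  · rwa [limsup_congr h3, limsup_const]
  · rwa [limsup_congr h2, limsup_const]
  · rwa [liminf_congr h3, liminf_const]
  · rwa [liminf_congr h2, liminf_const]

end Pool.Agent.Results.MP_36f7ac_an.AllFail
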